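import Mathlib

set_option autoImplicit false

namespace Pool.Agent.Helper531.FSP

open Set Filter Topology Metric

/-- unit vector with angle `x` -/
noncomputable def e (x : ℝ) : ℂ := Complex.exp (x * Complex.I)

theorem e_norm (x : ℝ) : ‖e x‖ = 1 := Complex.norm_exp_ofReal_mul_I x

theorem e_add (x y : ℝ) : e (x + y) = e x * e y := by
  simp only [e, ← Complex.exp_add]
  push_cast
  ring_nf

theorem e_ne (x : ℝ) : e x ≠ 0 := Complex.exp_ne_zero _

theorem e_zero : e 0 = 1 := by simp [e]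

theorem e_cont : Continuous e := by unfold e; fun_prop

theorem e_lip (x y : ℝ) : ‖e x - e y‖ ≤ |x - y| := by
  have h : e x - e y = e y * (e (x - y) - 1) := by
    rw [mul_sub, ← e_add]; simp
  rw [h, norm_mul, e_norm, one_mul]
  have := @Real.norm_exp_I_mul_ofReal_sub_one_le (x - y)
  rw [Real.norm_eq_abs] at this
  simp only [e]
  rwa [mul_comm] at this

theorem e_eq_one {x : ℝ} (h0 : 0 ≤ x) (h1 : x < 1) (h : e x = 1) : x = 0 := by
  have h2 := congrArg Complex.re h
  rw [e, Complex.exp_ofReal_mul_I_re, Complex.one_re] at h2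
  have hpi := Real.pi_gt_three
  exact (Real.cos_eq_one_iff_of_lt_of_lt (by linarith) (by linarith)).mp h2

noncomputable def rad (x : ℝ) : ℝ := x / (1 + x)

theorem rad_zero : rad 0 = 0 := by simp [rad]

theorem rad_nonneg {x : ℝ} (hx : 0 ≤ x) : 0 ≤ rad x := div_nonneg hx (by linarith)

theorem rad_pos {x : ℝ} (hx : 0 < x) : 0 < rad x := div_pos hx (by linarith)

theorem rad_lt_one {x : ℝ} (hx : 0 ≤ x) : rad x < 1 := by
  unfold rad; rw [div_lt_one (by linarith)]; linarith

theorem rad_sub {x y : ℝ} (hx : 0 ≤ x) (hy : 0 ≤ y) :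
    rad x - rad y = (x - y) / ((1 + x) * (1 + y)) := by
  unfold rad
  have h1 : (1 + x) ≠ 0 := by linarith
  have h2 : (1 + y) ≠ 0 := by linarith
  field_simp
  ring

theorem rad_lt {x y : ℝ} (hx : 0 ≤ x) (hxy : x < y) : rad x < rad y := by
  have h := rad_sub (x := y) (y := x) (by linarith) hx
  have : 0 < (y - x) / ((1 + y) * (1 + x)) := by
    apply div_pos (by linarith)
    exact mul_pos (by linarith) (by linarith)
  linarith

theorem rad_inj {x y : ℝ} (hx : 0 ≤ x) (hy : 0 ≤ y) (h : rad x = rad y) : x = y := by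
  rcases lt_trichotomy x y with h' | h' | h'
  · exact absurd h (rad_lt hx h').ne
  · exact h'
  · exact absurd h (rad_lt hy h').ne'

theorem rad_lip {x y : ℝ} (hx : 0 ≤ x) (hy : 0 ≤ y) : |rad x - rad y| ≤ |x - y| := by
  rw [rad_sub hx hy, abs_div]
  apply div_le_self (abs_nonneg _)
  rw [abs_of_pos (by positivity)]
  nlinarith

theorem rad_inv {r : ℝ} (hr : r < 1) : rad (r / (1 - r)) = r := by
  unfold rad
  have h1 : (1 - r) ≠ 0 := by linarith
  have h2 : 1 + r / (1 - r) = 1 / (1 - r) := by field_simp; ring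
  rw [h2]
  field_simp

theorem rad_par {x : ℝ} (hx : 0 ≤ x) : rad x / (1 - rad x) = x := by
  unfold rad
  have h1 : (1 + x) ≠ 0 := by linarith
  have h2 : 1 - x / (1 + x) = 1 / (1 + x) := by field_simp; ring
  rw [h2]
  field_simp

/-- the ray -/
noncomputable def j (x : ℝ) : ℂ × ℝ := ((rad x : ℂ) * e x, rad x * (1 - rad x))

theorem j_zero : j 0 = (0, 0) := by simp [j, rad_zero]

theorem j_norm {x : ℝ} (hx : 0 ≤ x) : ‖(j x).1‖ = rad x := by
  simp only [j, norm_mul, e_norm, mul_one, Complex.norm_real, Real.norm_eq_abs]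
  exact abs_of_nonneg (rad_nonneg hx)

theorem j_pos {x : ℝ} (hx : 0 < x) : 0 < (j x).2 :=
  mul_pos (rad_pos hx) (by linarith [rad_lt_one hx.le])

theorem j_inj {x y : ℝ} (hx : 0 ≤ x) (hy : 0 ≤ y) (h : j x = j y) : x = y := by
  apply rad_inj hx hy
  rw [← j_norm hx, ← j_norm hy, h]

theorem j_lip {x y : ℝ} (hx : 0 ≤ x) (hy : 0 ≤ y) : dist (j x) (j y) ≤ 2 * |x - y| := by
  rw [Prod.dist_eq]
  have h0 := rad_lip hx hy
  have hry := rad_lt_one hy
  have hry0 := rad_nonneg hy
  have hrx := rad_lt_one hx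
  have hrx0 := rad_nonneg hx
  have habs := abs_nonneg (x - y)
  apply max_le
  · rw [dist_eq_norm]
    have h1 : (j x).1 - (j y).1 = ((rad x - rad y : ℝ) : ℂ) * e x + (rad y : ℂ) * (e x - e y) := by
      simp only [j]; push_cast; ring
    rw [h1]
    refine (norm_add_le _ _).trans ?_
    rw [norm_mul, norm_mul, e_norm, Complex.norm_real, Complex.norm_real, Real.norm_eq_abs,
      Real.norm_eq_abs, abs_of_nonneg hry0]
    have h2 := e_lip x y
    have h3 : rad y * ‖e x - e y‖ ≤ 1 * |x - y| := mul_le_mul hry.le h2 (norm_nonneg _) zero_le_one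
    linarith
  · rw [Real.dist_eq]
    have h1 : (j x).2 - (j y).2 = (rad x - rad y) * (1 - rad x - rad y) := by
      simp only [j]; ring
    rw [h1, abs_mul]
    have h2 : |1 - rad x - rad y| ≤ 1 := by rw [abs_le]; constructor <;> linarith
    have h3 : |rad x - rad y| * |1 - rad x - rad y| ≤ |x - y| * 1 :=
      mul_le_mul h0 h2 (abs_nonneg _) habs
    linarith

theorem j_contOn : ContinuousOn j (Ici 0) := by
  have : ContinuousOn rad (Ici 0) := by
    unfold rad
    apply continuousOn_id.div (continuousOn_const.add continuousOn_id)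
    intro x hx
    have h0 : (0:ℝ) ≤ x := hx
    change (1:ℝ) + x ≠ 0
    linarith
  unfold j
  apply ContinuousOn.prodMk
  · exact (Complex.continuous_ofReal.comp_continuousOn this).mul e_cont.continuousOn
  · exact this.mul (continuousOn_const.sub this)

/-- the disc -/
def D : Set (ℂ × ℝ) := {p | ‖p.1‖ ≤ 1 ∧ p.2 = 0}

/-- the closed ray, together with the circle onto which it spirals -/
def Jb : Set (ℂ × ℝ) :=
  {p | ‖p.1‖ ≤ 1 ∧ p.2 = ‖p.1‖ * (1 - ‖p.1‖) ∧
    (‖p.1‖ < 1 → p.1 = (‖p.1‖ : ℂ) * e (‖p.1‖ / (1 - ‖p.1‖)))}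

/-- the continuum -/
def XS : Set (ℂ × ℝ) := D ∪ Jb

theorem j_mem {x : ℝ} (hx : 0 ≤ x) : j x ∈ Jb := by
  refine ⟨by rw [j_norm hx]; exact (rad_lt_one hx).le, by rw [j_norm hx]; rfl, fun _ => ?_⟩
  rw [j_norm hx, rad_par hx]; rfl

theorem par_nonneg {p : ℂ × ℝ} (h : ‖p.1‖ < 1) : 0 ≤ ‖p.1‖ / (1 - ‖p.1‖) :=
  div_nonneg (norm_nonneg _) (by linarith)

theorem eq_j {p : ℂ × ℝ} (hp : p ∈ Jb) (h : ‖p.1‖ < 1) : p = j (‖p.1‖ / (1 - ‖p.1‖)) := by
  apply Prod.ext
  · simp only [j]
    rw [rad_inv h]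
    exact hp.2.2 h
  · simp only [j]
    rw [rad_inv h]
    exact hp.2.1

theorem mem_D_of_norm_one {p : ℂ × ℝ} (hp : p ∈ Jb) (h : ‖p.1‖ = 1) : p ∈ D :=
  ⟨h.le, by rw [hp.2.1, h]; ring⟩

theorem mem_D_or {p : ℂ × ℝ} (hp : p ∈ XS) : p ∈ D ∨ ∃ x, 0 < x ∧ p = j x := by
  rcases hp with hp | hp
  · left; exact hp
  · rcases hp.1.lt_or_eq with h | h
    · rcases (par_nonneg h).lt_or_eq with h' | h'
      · right; exact ⟨_, h', eq_j hp h⟩
      · left
        have := eq_j hp h
        rw [← h', j_zero] at this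
        rw [this]
        exact ⟨by simp, rfl⟩
    · left; exact mem_D_of_norm_one hp h

theorem norm_le_one {p : ℂ × ℝ} (hp : p ∈ XS) : ‖p.1‖ ≤ 1 := by
  rcases hp with hp | hp
  · exact hp.1
  · exact hp.1

theorem snd_bounds {p : ℂ × ℝ} (hp : p ∈ XS) : 0 ≤ p.2 ∧ p.2 ≤ 1 := by
  rcases hp with hp | hp
  · rw [hp.2]; norm_num
  · rw [hp.2.1]
    have h1 := hp.1
    have h2 := norm_nonneg p.1
    constructor <;> nlinarith

theorem D_closed : IsClosed D := by
  have h1 : IsClosed {p : ℂ × ℝ | ‖p.1‖ ≤ 1} := isClosed_le continuous_fst.norm continuous_const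
  have h2 : IsClosed {p : ℂ × ℝ | p.2 = 0} := isClosed_eq continuous_snd continuous_const
  exact h1.inter h2

theorem Jb_closed : IsClosed Jb := by
  apply isClosed_of_closure_subset
  intro p hp
  obtain ⟨f, hf, hlim⟩ := mem_closure_iff_seq_limit.mp hp
  have h1 : Tendsto (fun n => (f n).1) atTop (𝓝 p.1) := (continuous_fst.tendsto p).comp hlim
  have h2 : Tendsto (fun n => (f n).2) atTop (𝓝 p.2) := (continuous_snd.tendsto p).comp hlim
  have h3 : Tendsto (fun n => ‖(f n).1‖) atTop (𝓝 ‖p.1‖) := h1.norm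
  refine ⟨le_of_tendsto' h3 (fun n => (hf n).1), ?_, ?_⟩
  · apply tendsto_nhds_unique h2
    apply (h3.mul (tendsto_const_nhds.sub h3)).congr
    intro n
    exact ((hf n).2.1).symm
  · intro hlt
    apply tendsto_nhds_unique h1
    have h4 : Tendsto (fun n => ((‖(f n).1‖ : ℝ) : ℂ) * e (‖(f n).1‖ / (1 - ‖(f n).1‖))) atTop
        (𝓝 (((‖p.1‖ : ℝ) : ℂ) * e (‖p.1‖ / (1 - ‖p.1‖)))) := by
      apply Tendsto.mul
      · exact (Complex.continuous_ofReal.tendsto _).comp h3
      · apply (e_cont.tendsto _).comp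
        exact h3.div (tendsto_const_nhds.sub h3) (by linarith)
    apply h4.congr'
    filter_upwards [h3.eventually (gt_mem_nhds hlt)] with n hn
    exact ((hf n).2.2 hn).symm

theorem XS_closed : IsClosed XS := D_closed.union Jb_closed

theorem XS_compact : IsCompact XS := by
  apply Metric.isCompact_of_isClosed_isBounded XS_closed
  apply (Metric.isBounded_closedBall (x := ((0:ℂ), (0:ℝ))) (r := 1)).subset
  intro p hp
  rw [Metric.mem_closedBall, Prod.dist_eq]
  apply max_le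
  · rw [dist_zero_right]; exact norm_le_one hp
  · rw [dist_zero_right, Real.norm_eq_abs, abs_of_nonneg (snd_bounds hp).1]; exact (snd_bounds hp).2

theorem dist_le_two {p q : ℂ × ℝ} (hp : p ∈ XS) (hq : q ∈ XS) : dist p q ≤ 2 := by
  rw [Prod.dist_eq]
  apply max_le
  · have := dist_triangle p.1 0 q.1
    rw [dist_zero_right, dist_zero_left] at this
    linarith [norm_le_one hp, norm_le_one hq]
  · rw [Real.dist_eq, abs_le]
    have h1 := snd_bounds hp
    have h2 := snd_bounds hq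
    constructor <;> linarith

theorem dist_a_le_one {p : ℂ × ℝ} (hp : p ∈ XS) : dist ((0:ℂ), (0:ℝ)) p ≤ 1 := by
  rw [Prod.dist_eq]
  apply max_le
  · rw [dist_zero_left]; exact norm_le_one hp
  · rw [dist_zero_left, Real.norm_eq_abs, abs_of_nonneg (snd_bounds hp).1]; exact (snd_bounds hp).2

theorem a_mem : ((0:ℂ), (0:ℝ)) ∈ XS := Or.inl ⟨by simp, rfl⟩

theorem D_preconnected : IsPreconnected D := by
  have : D = (fun z : ℂ => (z, (0:ℝ))) '' closedBall 0 1 := by
    ext p
    constructor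
    · intro hp
      exact ⟨p.1, by rw [mem_closedBall_zero_iff]; exact hp.1, Prod.ext rfl hp.2.symm⟩
    · rintro ⟨z, hz, rfl⟩
      rw [mem_closedBall_zero_iff] at hz
      exact ⟨hz, rfl⟩
  rw [this]
  exact (convex_closedBall (0:ℂ) 1).isPreconnected.image _ (by fun_prop)

theorem XS_eq : XS = D ∪ j '' Ici 0 := by
  ext p
  constructor
  · intro hp
    rcases mem_D_or hp with h | ⟨x, hx, rfl⟩
    · left; exact h
    · right; exact ⟨x, hx.le, rfl⟩
  · rintro (h | ⟨x, hx, rfl⟩)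
    · left; exact h
    · right; exact j_mem hx

theorem XS_connected : IsConnected XS := by
  refine ⟨⟨_, a_mem⟩, ?_⟩
  rw [XS_eq]
  have h1 : ((0:ℂ), (0:ℝ)) ∈ D := ⟨by simp, rfl⟩
  have h2 : ((0:ℂ), (0:ℝ)) ∈ j '' Ici 0 := ⟨0, self_mem_Ici, j_zero⟩
  exact D_preconnected.union _ h1 h2 (isPreconnected_Ici.image _ j_contOn)

end Pool.Agent.Helper531.FSP
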