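import Mathlib
import Pool.Agent.Helper531.FSP.Space

set_option autoImplicit false

namespace Pool.Agent.Helper531.FSP

open Set Filter Topology Metric

/-! ### arcwise connectedness -/

/-- `p` and `q` are the endpoints of an injective path in `XS` -/
def ArcIn (p q : XS) : Prop :=
  ∃ γ : unitInterval → XS, Continuous γ ∧ Function.Injective γ ∧ γ 0 = p ∧ γ 1 = q

theorem arcIn_of (γ : ℝ → ℂ × ℝ) (S : Set ℝ) (hS : S.OrdConnected) (hc : ContinuousOn γ S)
    (hi : InjOn γ S) (hm : MapsTo γ S XS) {u v : ℝ} (hu : u ∈ S) (hv : v ∈ S) (huv : u ≠ v)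
    {p q : XS} (hp : γ u = p) (hq : γ v = q) : ArcIn p q := by
  have hmem : ∀ t : unitInterval, u + (t : ℝ) * (v - u) ∈ S := by
    intro t
    have h0 := t.2.1
    have h1 := t.2.2
    have hc : Convex ℝ S := hS.convex
    have := hc hu hv (sub_nonneg.mpr h1) h0 (by ring)
    simp only [smul_eq_mul] at this
    have e : u + (t : ℝ) * (v - u) = (1 - (t : ℝ)) * u + (t : ℝ) * v := by ring
    rw [e]
    exact this
  refine ⟨fun t => ⟨γ (u + (t : ℝ) * (v - u)), hm (hmem t)⟩, ?_, ?_, ?_, ?_⟩
  · apply Continuous.subtype_mk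
    apply hc.comp_continuous _ hmem
    fun_prop
  · intro s t hst
    have h1 : γ (u + (s : ℝ) * (v - u)) = γ (u + (t : ℝ) * (v - u)) := congrArg Subtype.val hst
    have h2 := hi (hmem s) (hmem t) h1
    have h3 : ((s : ℝ) - t) * (v - u) = 0 := by linarith
    rcases mul_eq_zero.mp h3 with h4 | h4
    · exact Subtype.ext (by linarith)
    · exact absurd (by linarith) huv
  · apply Subtype.ext
    have : u + ((0 : unitInterval) : ℝ) * (v - u) = u := by simp
    simp only [this]
    exact hp
  · apply Subtype.ext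
    have : u + ((1 : unitInterval) : ℝ) * (v - u) = v := by simp
    simp only [this]
    exact hq

noncomputable def seg (z w : ℂ) (t : ℝ) : ℂ × ℝ := (z + (t : ℂ) * (w - z), 0)

theorem arc_DD {p q : XS} (hp : (p : ℂ × ℝ) ∈ D) (hq : (q : ℂ × ℝ) ∈ D) (hpq : p ≠ q) :
    ArcIn p q := by
  have hne : (p : ℂ × ℝ).1 ≠ (q : ℂ × ℝ).1 := by
    intro h
    apply hpq
    apply Subtype.ext
    exact Prod.ext h (by rw [hp.2, hq.2])
  apply arcIn_of (seg (p : ℂ × ℝ).1 (q : ℂ × ℝ).1) (Icc 0 1) ordConnected_Icc (u := 0) (v := 1)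
  · apply Continuous.continuousOn
    unfold seg
    fun_prop
  · intro s _ t _ hst
    have h1 := congrArg Prod.fst hst
    simp only [seg] at h1
    have h2 : ((s : ℂ) - t) * ((q : ℂ × ℝ).1 - (p : ℂ × ℝ).1) = 0 := by linear_combination h1
    rcases mul_eq_zero.mp h2 with h3 | h3
    · exact_mod_cast (sub_eq_zero.mp h3)
    · exact absurd (sub_eq_zero.mp h3).symm hne
  · intro t ht
    left
    refine ⟨?_, rfl⟩
    simp only [seg]
    have hc := convex_closedBall (0 : ℂ) 1
    have hz : (p : ℂ × ℝ).1 ∈ closedBall (0 : ℂ) 1 := by rw [mem_closedBall_zero_iff]; exact hp.1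
    have hw : (q : ℂ × ℝ).1 ∈ closedBall (0 : ℂ) 1 := by rw [mem_closedBall_zero_iff]; exact hq.1
    have := hc hz hw (sub_nonneg.mpr ht.2) ht.1 (by ring)
    rw [mem_closedBall_zero_iff] at this
    have e : (p : ℂ × ℝ).1 + (t : ℂ) * ((q : ℂ × ℝ).1 - (p : ℂ × ℝ).1)
      = (1 - t) • (p : ℂ × ℝ).1 + t • (q : ℂ × ℝ).1 := by
      simp only [Complex.real_smul]
      push_cast
      ring
    rw [e]
    exact this
  · exact ⟨le_rfl, zero_le_one⟩
  · exact ⟨zero_le_one, le_rfl⟩
  · norm_num
  · apply Prod.ext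
    · simp [seg]
    · exact hp.2.symm
  · apply Prod.ext
    · simp [seg]
    · exact hq.2.symm

open Classical in
/-- a path from a point of the disc to the centre and then along the ray -/
noncomputable def Gam (z : ℂ) (t : ℝ) : ℂ × ℝ := if t ≤ 0 then ((-t : ℂ) * z, 0) else j t

theorem Gam_cont (z : ℂ) : ContinuousOn (Gam z) (Ici (-1)) := by
  have h1 : ContinuousOn (Gam z) (Iic 0) := by
    have : Continuous (fun t : ℝ => (((-t : ℂ) * z, (0:ℝ)) : ℂ × ℝ)) := by fun_prop
    apply this.continuousOn.congr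
    intro t ht
    have ht' : t ≤ 0 := ht
    unfold Gam
    rw [if_pos ht']
  have h2 : ContinuousOn (Gam z) (Ici 0) := by
    apply j_contOn.congr
    intro t ht
    have ht' : (0:ℝ) ≤ t := ht
    unfold Gam
    rcases ht'.lt_or_eq with h | h
    · rw [if_neg (not_le.mpr h)]
    · rw [if_pos h.ge, ← h, j_zero]; simp
  have h3 := h1.union_of_isClosed h2 isClosed_Iic isClosed_Ici
  apply h3.mono
  intro t _
  rcases le_total t 0 with h | h
  · exact Or.inl h
  · exact Or.inr h

theorem Gam_inj {z : ℂ} (hz : z ≠ 0) : InjOn (Gam z) (Ici (-1)) := by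
  intro s _ t _ hst
  unfold Gam at hst
  split_ifs at hst with h1 h2 h2
  · have h3 := congrArg Prod.fst hst
    simp only at h3
    have h4 := mul_right_cancel₀ hz h3
    have h5 : (s : ℂ) = t := by linear_combination -h4
    exact_mod_cast h5
  · exfalso
    have h3 := congrArg Prod.snd hst
    simp only at h3
    have := j_pos (not_le.mp h2)
    linarith
  · exfalso
    have h3 := congrArg Prod.snd hst
    simp only at h3
    have := j_pos (not_le.mp h1)
    linarith
  · exact j_inj (not_le.mp h1).le (not_le.mp h2).le hst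

theorem Gam_maps {z : ℂ} (hz : ‖z‖ ≤ 1) : MapsTo (Gam z) (Ici (-1)) XS := by
  intro t ht
  have ht' : (-1:ℝ) ≤ t := ht
  unfold Gam
  split_ifs with h
  · left
    refine ⟨?_, rfl⟩
    simp only [norm_mul, norm_neg, Complex.norm_real, Real.norm_eq_abs]
    have h1 : |t| ≤ 1 := abs_le.mpr ⟨ht', by linarith⟩
    have := mul_le_mul h1 hz (norm_nonneg z) zero_le_one
    linarith
  · right
    exact j_mem (not_le.mp h).le

theorem arcwise (p q : XS) (hpq : p ≠ q) : ArcIn p q := by
  have key : ∀ x y : ℝ, 0 ≤ x → 0 ≤ y → x ≠ y → ∀ p q : XS, j x = p → j y = q → ArcIn p q := by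
    intro x y hx hy hxy p q hp hq
    exact arcIn_of j (Ici 0) ordConnected_Ici j_contOn (fun s hs t ht h => j_inj hs ht h)
      (fun t ht => Or.inr (j_mem ht)) (u := x) (v := y) hx hy hxy hp hq
  rcases mem_D_or p.2 with hp | ⟨x, hx, hp⟩
  · rcases mem_D_or q.2 with hq | ⟨y, hy, hq⟩
    · exact arc_DD hp hq hpq
    · by_cases h0 : (p : ℂ × ℝ).1 = 0
      · apply key 0 y le_rfl hy.le hy.ne p q _ hq.symm
        rw [j_zero]
        exact (Prod.ext h0 hp.2).symm
      · refine arcIn_of (Gam (p : ℂ × ℝ).1) (Ici (-1)) ordConnected_Ici (Gam_cont _) (Gam_inj h0)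
          (Gam_maps hp.1) (u := -1) (v := y) (by simp) ?_ (by linarith) ?_ ?_
        · change (-1:ℝ) ≤ y
          linarith
        · unfold Gam
          rw [if_pos (by norm_num)]
          apply Prod.ext
          · simp
          · exact hp.2.symm
        · unfold Gam
          rw [if_neg (not_le.mpr hy)]
          exact hq.symm
  · rcases mem_D_or q.2 with hq | ⟨y, hy, hq⟩
    · by_cases h0 : (q : ℂ × ℝ).1 = 0
      · apply key x 0 hx.le le_rfl hx.ne' p q hp.symm
        rw [j_zero]
        exact (Prod.ext h0 hq.2).symm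
      · refine arcIn_of (Gam (q : ℂ × ℝ).1) (Ici (-1)) ordConnected_Ici (Gam_cont _) (Gam_inj h0)
          (Gam_maps hq.1) (u := x) (v := -1) ?_ (by simp) (by linarith) ?_ ?_
        · change (-1:ℝ) ≤ x
          linarith
        · unfold Gam
          rw [if_neg (not_le.mpr hx)]
          exact hp.symm
        · unfold Gam
          rw [if_pos (by norm_num)]
          apply Prod.ext
          · simp
          · exact hq.2.symm
    · apply key x y hx.le hy.le _ p q hp.symm hq.symm
      rintro rfl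
      exact hpq (Subtype.ext (hp.trans hq.symm))

/-! ### a free arc -/

theorem free_arc : ∃ γ : unitInterval → XS, Continuous γ ∧ Function.Injective γ ∧
    IsOpen (γ '' {t : unitInterval | (0 : unitInterval) < t ∧ t < 1}) := by
  have hm : ∀ t : unitInterval, j (1 + (t : ℝ)) ∈ XS := fun t =>
    Or.inr (j_mem (by linarith [t.2.1]))
  refine ⟨fun t => ⟨j (1 + (t : ℝ)), hm t⟩, ?_, ?_, ?_⟩
  · apply Continuous.subtype_mk
    apply j_contOn.comp_continuous (by fun_prop)
    intro t
    change (0:ℝ) ≤ 1 + t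
    linarith [t.2.1]
  · intro s t hst
    have h1 : j (1 + (s : ℝ)) = j (1 + (t : ℝ)) := congrArg Subtype.val hst
    have h2 := j_inj (by linarith [s.2.1]) (by linarith [t.2.1]) h1
    exact Subtype.ext (by linarith)
  · have himg : (fun t : unitInterval => (⟨j (1 + (t : ℝ)), hm t⟩ : XS)) ''
        {t : unitInterval | (0 : unitInterval) < t ∧ t < 1}
        = {p : XS | 0 < (p : ℂ × ℝ).2} ∩
          ({p : XS | rad 1 < ‖(p : ℂ × ℝ).1‖} ∩ {p : XS | ‖(p : ℂ × ℝ).1‖ < rad 2}) := by
      ext p
      constructor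
      · rintro ⟨t, ⟨ht0, ht1⟩, rfl⟩
        have h0 : (0:ℝ) < t := ht0
        have h1 : (t:ℝ) < 1 := ht1
        refine ⟨j_pos (by linarith), ?_, ?_⟩
        · change rad 1 < ‖(j (1 + (t : ℝ))).1‖
          rw [j_norm (by linarith)]
          exact rad_lt zero_le_one (by linarith)
        · change ‖(j (1 + (t : ℝ))).1‖ < rad 2
          rw [j_norm (by linarith)]
          exact rad_lt (by linarith) (by linarith)
      · rintro ⟨h1, h2, h3⟩
        have h1' : 0 < (p : ℂ × ℝ).2 := h1
        have h2' : rad 1 < ‖(p : ℂ × ℝ).1‖ := h2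
        have h3' : ‖(p : ℂ × ℝ).1‖ < rad 2 := h3
        rcases mem_D_or p.2 with hp | ⟨x, hx, hp⟩
        · rw [hp.2] at h1'
          exact absurd h1' (lt_irrefl _)
        · rw [hp, j_norm hx.le] at h2' h3'
          have hx1 : 1 < x := by
            by_contra hcon
            rw [not_lt] at hcon
            rcases hcon.lt_or_eq with h | h
            · exact absurd (rad_lt hx.le h) (not_lt.mpr h2'.le)
            · rw [h] at h2'; exact lt_irrefl _ h2'
          have hx2 : x < 2 := by
            by_contra hcon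
            rw [not_lt] at hcon
            rcases hcon.lt_or_eq with h | h
            · exact absurd (rad_lt (by norm_num) h) (not_lt.mpr h3'.le)
            · rw [← h] at h3'; exact lt_irrefl _ h3'
          refine ⟨⟨x - 1, by linarith, by linarith⟩, ⟨?_, ?_⟩, ?_⟩
          · change (0:ℝ) < x - 1
            linarith
          · change x - 1 < (1:ℝ)
            linarith
          · apply Subtype.ext
            simp only
            rw [hp]
            congr 1
            ring
    rw [himg]
    have c2 : Continuous (fun p : XS => (p : ℂ × ℝ).2) := continuous_snd.comp continuous_subtype_val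
    have c1 : Continuous (fun p : XS => ‖(p : ℂ × ℝ).1‖) :=
      (continuous_fst.comp continuous_subtype_val).norm
    exact (isOpen_lt continuous_const c2).inter
      ((isOpen_lt continuous_const c1).inter (isOpen_lt c1 continuous_const))

/-! ### not a circle -/

theorem e_odd (n : ℕ) : e ((2 * n + 1) * Real.pi) = -1 := by
  have h : ((2 * n + 1) * Real.pi : ℝ) = n * (2 * Real.pi) + Real.pi := by ring
  rw [h, e_add]
  have h1 : e (n * (2 * Real.pi)) = 1 := by
    unfold e
    have := Complex.exp_nat_mul_two_pi_mul_I n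
    rw [← this]
    congr 1
    push_cast
    ring
  have h2 : e Real.pi = -1 := by unfold e; exact Complex.exp_pi_mul_I
  rw [h1, h2, one_mul]

theorem rad_tendsto : Tendsto rad atTop (𝓝 1) := by
  have h : Tendsto (fun x : ℝ => 1 - (1 + x)⁻¹) atTop (𝓝 (1 - 0)) := by
    apply Tendsto.sub tendsto_const_nhds
    apply tendsto_inv_atTop_zero.comp
    exact tendsto_atTop_add_const_left _ _ tendsto_id
  rw [sub_zero] at h
  apply h.congr'
  filter_upwards [eventually_gt_atTop 0] with x hx
  unfold rad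
  have : (1 + x) ≠ 0 := by linarith
  field_simp
  ring

theorem neg_one_mem_closure : ((-1 : ℂ), (0 : ℝ)) ∈ closure (j '' Ioi 1) := by
  have hx : Tendsto (fun n : ℕ => (2 * (n : ℝ) + 1) * Real.pi) atTop atTop := by
    apply Tendsto.atTop_mul_const Real.pi_pos
    apply tendsto_atTop_add_const_right
    exact tendsto_natCast_atTop_atTop.const_mul_atTop (by norm_num)
  have hr : Tendsto (fun n : ℕ => rad ((2 * (n : ℝ) + 1) * Real.pi)) atTop (𝓝 1) :=
    rad_tendsto.comp hx
  have hj : Tendsto (fun n : ℕ => j ((2 * (n : ℝ) + 1) * Real.pi)) atTop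
      (𝓝 ((-1 : ℂ), (0 : ℝ))) := by
    unfold j
    apply Tendsto.prodMk_nhds
    · simp only [e_odd]
      have h1 : Tendsto (fun n : ℕ => ((rad ((2 * (n : ℝ) + 1) * Real.pi) : ℝ) : ℂ)) atTop
          (𝓝 ((1 : ℝ) : ℂ)) := (Complex.continuous_ofReal.tendsto _).comp hr
      have h2 := h1.mul (tendsto_const_nhds (x := (-1 : ℂ)))
      simpa using h2
    · have h2 := hr.mul (tendsto_const_nhds (x := (1:ℝ)) |>.sub hr)
      simpa using h2
  apply mem_closure_of_tendsto hj
  filter_upwards with n
  refine ⟨_, ?_, rfl⟩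
  change (1:ℝ) < (2 * (n : ℝ) + 1) * Real.pi
  have h1 := Real.pi_gt_three
  have h2 : (0:ℝ) ≤ n := Nat.cast_nonneg n
  nlinarith

theorem punctured_disc : IsPreconnected (D \ {((1 : ℂ), (0 : ℝ))}) := by
  have hS : StarConvex ℝ (0 : ℂ) (closedBall (0 : ℂ) 1 \ {1}) := by
    intro z hz a b ha hb hab
    have hz1 : ‖z‖ ≤ 1 := mem_closedBall_zero_iff.mp hz.1
    rw [smul_zero, zero_add]
    refine ⟨?_, ?_⟩
    · rw [mem_closedBall_zero_iff, norm_smul, Real.norm_eq_abs, abs_of_nonneg hb]
      have := mul_le_mul (show b ≤ 1 by linarith) hz1 (norm_nonneg z) zero_le_one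
      linarith
    · intro h
      rw [Set.mem_singleton_iff] at h
      have hn : b * ‖z‖ = 1 := by
        have := congrArg norm h
        rwa [norm_smul, Real.norm_eq_abs, abs_of_nonneg hb, norm_one] at this
      have hb1 : b = 1 := by
        have h1 : b * ‖z‖ ≤ b * 1 := mul_le_mul_of_nonneg_left hz1 hb
        linarith
      rw [hb1, one_smul] at h
      exact hz.2 h
  have hP : IsPreconnected (closedBall (0 : ℂ) 1 \ {1}) := by
    have hne : (0:ℂ) ∈ closedBall (0 : ℂ) 1 \ {1} := ⟨by simp, by simp⟩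
    exact (hS.isPathConnected hne).isConnected.isPreconnected
  have : D \ {((1 : ℂ), (0 : ℝ))} = (fun z : ℂ => (z, (0:ℝ))) '' (closedBall (0 : ℂ) 1 \ {1}) := by
    ext p
    constructor
    · rintro ⟨hp, hp'⟩
      refine ⟨p.1, ⟨by rw [mem_closedBall_zero_iff]; exact hp.1, ?_⟩, Prod.ext rfl hp.2.symm⟩
      intro h
      exact hp' (Prod.ext h hp.2)
    · rintro ⟨z, ⟨hz, hz1⟩, rfl⟩
      rw [mem_closedBall_zero_iff] at hz
      refine ⟨⟨hz, rfl⟩, ?_⟩
      intro h
      exact hz1 (congrArg Prod.fst h)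
  rw [this]
  exact hP.image _ (by fun_prop)

theorem compl_preconnected : IsPreconnected (XS \ {j 1, ((1 : ℂ), (0 : ℝ))}) := by
  have hK : IsPreconnected (insert ((-1 : ℂ), (0 : ℝ)) (j '' Ioi 1)) := by
    have h1 : IsPreconnected (j '' Ioi 1) :=
      isPreconnected_Ioi.image _ (j_contOn.mono (fun x hx => by
        have : (1:ℝ) < x := hx
        change (0:ℝ) ≤ x
        linarith))
    exact h1.subset_closure (subset_insert _ _)
      (insert_subset neg_one_mem_closure subset_closure)
  have hL : IsPreconnected (j '' Ico 0 1) :=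
    isPreconnected_Ico.image _ (j_contOn.mono (fun x hx => hx.1))
  have hneg : ((-1 : ℂ), (0 : ℝ)) ∈ D \ {((1 : ℂ), (0 : ℝ))} := by
    refine ⟨⟨by simp, rfl⟩, ?_⟩
    intro h
    have := congrArg (fun p : ℂ × ℝ => p.1.re) h
    simp at this
    norm_num at this
  have hzero : ((0 : ℂ), (0 : ℝ)) ∈ D \ {((1 : ℂ), (0 : ℝ))} := by
    refine ⟨⟨by simp, rfl⟩, ?_⟩
    intro h
    have := congrArg (fun p : ℂ × ℝ => p.1.re) h
    simp at this
  have h1 := IsPreconnected.union _ hneg (mem_insert _ _) punctured_disc hK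
  have hzero' : ((0 : ℂ), (0 : ℝ)) ∈ (D \ {((1 : ℂ), (0 : ℝ))}) ∪
      insert ((-1 : ℂ), (0 : ℝ)) (j '' Ioi 1) := Or.inl hzero
  have h2 := IsPreconnected.union _ hzero' (show ((0 : ℂ), (0 : ℝ)) ∈ j '' Ico 0 1 from
    ⟨0, ⟨le_rfl, zero_lt_one⟩, j_zero⟩) h1 hL
  have hset : XS \ {j 1, ((1 : ℂ), (0 : ℝ))} = (D \ {((1 : ℂ), (0 : ℝ))}) ∪
      insert ((-1 : ℂ), (0 : ℝ)) (j '' Ioi 1) ∪ j '' Ico 0 1 := by
    ext p
    constructor
    · rintro ⟨hp, hp'⟩
      rw [Set.mem_insert_iff, Set.mem_singleton_iff, not_or] at hp'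
      rcases mem_D_or hp with h | ⟨x, hx, rfl⟩
      · left; left; exact ⟨h, hp'.2⟩
      · rcases lt_trichotomy x 1 with h | h | h
        · right; exact ⟨x, ⟨hx.le, h⟩, rfl⟩
        · exact absurd (by rw [h]) hp'.1
        · left; right; right; exact ⟨x, h, rfl⟩
    · have hj1 : ∀ z : ℂ, j 1 ≠ (z, 0) := by
        intro z h
        have h3 := j_pos zero_lt_one
        rw [h] at h3
        exact lt_irrefl _ h3
      have hone : ∀ x : ℝ, 0 ≤ x → j x ≠ ((1 : ℂ), (0 : ℝ)) := by
        intro x hx h
        have h3 := j_norm hx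
        rw [h] at h3
        have h4 := rad_lt_one hx
        simp at h3
        linarith
      rintro ((⟨hp, hp'⟩ | (rfl | ⟨x, hx, rfl⟩)) | ⟨x, hx, rfl⟩)
      · refine ⟨Or.inl hp, ?_⟩
        rw [Set.mem_insert_iff, Set.mem_singleton_iff, not_or]
        refine ⟨?_, hp'⟩
        intro h
        apply hj1 p.1
        rw [← h]
        exact Prod.ext rfl hp.2
      · refine ⟨Or.inl hneg.1, ?_⟩
        rw [Set.mem_insert_iff, Set.mem_singleton_iff, not_or]
        exact ⟨fun h => hj1 _ h.symm, hneg.2⟩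
      · have hx' : (1:ℝ) < x := hx
        refine ⟨Or.inr (j_mem (by linarith)), ?_⟩
        rw [Set.mem_insert_iff, Set.mem_singleton_iff, not_or]
        refine ⟨?_, hone x (by linarith)⟩
        intro h
        have := j_inj (by linarith) zero_le_one h
        linarith
      · refine ⟨Or.inr (j_mem hx.1), ?_⟩
        rw [Set.mem_insert_iff, Set.mem_singleton_iff, not_or]
        refine ⟨?_, hone x hx.1⟩
        intro h
        have := j_inj hx.1 zero_le_one h
        linarith [hx.2]
  rw [hset]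
  exact h2

theorem circle_two_points (u v : Circle) (huv : u ≠ v) : ¬ IsPreconnected ({u, v}ᶜ : Set Circle) := by
  intro hpre
  -- rotate so that `u` becomes `-1`
  have hneg : ‖(-1 : ℂ)‖ = 1 := by simp
  let m : Circle := Circle.exp Real.pi
  let c : Circle := m * u⁻¹
  have hcont : Continuous (fun z : Circle => c * z) := continuous_const.mul continuous_id
  have hcu : c * u = m := by simp [c]
  have him : IsPreconnected ((fun z : Circle => c * z) '' ({u, v}ᶜ : Set Circle)) :=
    hpre.image _ hcont.continuousOn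
  have himeq : (fun z : Circle => c * z) '' ({u, v}ᶜ : Set Circle) = ({m, c * v}ᶜ : Set Circle) := by
    ext z
    constructor
    · rintro ⟨y, hy, rfl⟩
      rw [Set.mem_compl_iff, Set.mem_insert_iff, Set.mem_singleton_iff, not_or] at hy ⊢
      refine ⟨?_, ?_⟩
      · intro h
        apply hy.1
        have h' : c * y = c * u := by rw [hcu]; exact h
        exact mul_left_cancel h'
      · intro h
        exact hy.2 (mul_left_cancel h)
    · intro hz
      rw [Set.mem_compl_iff, Set.mem_insert_iff, Set.mem_singleton_iff, not_or] at hz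
      refine ⟨c⁻¹ * z, ?_, by simp⟩
      rw [Set.mem_compl_iff, Set.mem_insert_iff, Set.mem_singleton_iff, not_or]
      refine ⟨?_, ?_⟩
      · intro h
        apply hz.1
        rw [← hcu, ← h]
        simp
      · intro h
        apply hz.2
        rw [← h]
        simp
  rw [himeq] at him
  set w : Circle := c * v with hw
  have hwm : w ≠ m := by
    intro h
    apply huv
    have : c * v = c * u := by rw [hcu]; exact h
    exact (mul_left_cancel this).symm
  have hargm : Complex.arg (m : ℂ) = Real.pi := by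
    have := Circle.arg_exp (x := Real.pi) (by linarith [Real.pi_pos]) le_rfl
    exact this
  have hargc : ContinuousOn (fun z : Circle => Complex.arg (z : ℂ)) ({m, w}ᶜ : Set Circle) := by
    intro z hz
    rw [Set.mem_compl_iff, Set.mem_insert_iff, Set.mem_singleton_iff, not_or] at hz
    apply ContinuousAt.continuousWithinAt
    apply ContinuousAt.comp (g := Complex.arg) (f := fun z : Circle => (z : ℂ))
    · apply Complex.continuousAt_arg
      rw [Complex.mem_slitPlane_iff_arg]
      refine ⟨?_, Circle.coe_ne_zero z⟩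
      intro h
      apply hz.1
      apply Circle.injective_arg
      simp only
      rw [h, hargm]
    · exact continuous_subtype_val.continuousAt
  have himg := (him.image _ hargc).ordConnected
  have hexp : ∀ θ : ℝ, -Real.pi < θ → θ < Real.pi → θ ≠ Complex.arg (w : ℂ) →
      θ ∈ (fun z : Circle => Complex.arg (z : ℂ)) '' ({m, w}ᶜ : Set Circle) := by
    intro θ h1 h2 h3
    have h4 := Circle.arg_exp h1 h2.le
    refine ⟨Circle.exp θ, ?_, h4⟩
    rw [Set.mem_compl_iff, Set.mem_insert_iff, Set.mem_singleton_iff, not_or]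
    refine ⟨?_, ?_⟩
    · intro h
      rw [h, hargm] at h4
      linarith
    · intro h
      rw [h] at h4
      exact h3 h4.symm
  have ha1 := Complex.neg_pi_lt_arg (w : ℂ)
  have ha2 := Complex.arg_le_pi (w : ℂ)
  have ha3 : Complex.arg (w : ℂ) ≠ Real.pi := by
    intro h
    apply hwm
    apply Circle.injective_arg
    simp only
    rw [h, hargm]
  have ha4 : Complex.arg (w : ℂ) < Real.pi := lt_of_le_of_ne ha2 ha3
  have hL := hexp ((Complex.arg (w : ℂ) - Real.pi) / 2) (by linarith) (by linarith)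
    (by intro h; linarith)
  have hR := hexp ((Complex.arg (w : ℂ) + Real.pi) / 2) (by linarith) (by linarith)
    (by intro h; linarith)
  have hmid := himg.out hL hR (show Complex.arg (w : ℂ) ∈ Icc _ _ from ⟨by linarith, by linarith⟩)
  obtain ⟨z, hz, hzw⟩ := hmid
  rw [Set.mem_compl_iff, Set.mem_insert_iff, Set.mem_singleton_iff, not_or] at hz
  exact hz.2 (Circle.injective_arg hzw)

theorem not_circle (h : XS ≃ₜ Circle) : False := by
  have h1 : j 1 ∈ XS := Or.inr (j_mem zero_le_one)
  have h2 : ((1 : ℂ), (0 : ℝ)) ∈ XS := Or.inl ⟨by simp, rfl⟩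
  have hne : (⟨j 1, h1⟩ : XS) ≠ ⟨((1 : ℂ), (0 : ℝ)), h2⟩ := by
    intro h
    have h3 := congrArg (fun p : XS => (p : ℂ × ℝ).2) h
    simp only at h3
    have h4 := j_pos zero_lt_one
    linarith
  have hpre : IsPreconnected ({⟨j 1, h1⟩, ⟨((1 : ℂ), (0 : ℝ)), h2⟩}ᶜ : Set XS) := by
    have hi : IsInducing (Subtype.val : XS → ℂ × ℝ) := IsInducing.subtypeVal
    rw [← hi.isPreconnected_image]
    have : (Subtype.val : XS → ℂ × ℝ) '' ({⟨j 1, h1⟩, ⟨((1 : ℂ), (0 : ℝ)), h2⟩}ᶜ : Set XS)
        = XS \ {j 1, ((1 : ℂ), (0 : ℝ))} := by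
      ext p
      constructor
      · rintro ⟨q, hq, rfl⟩
        rw [Set.mem_compl_iff, Set.mem_insert_iff, Set.mem_singleton_iff, not_or] at hq
        refine ⟨q.2, ?_⟩
        rw [Set.mem_insert_iff, Set.mem_singleton_iff, not_or]
        exact ⟨fun h => hq.1 (Subtype.ext h), fun h => hq.2 (Subtype.ext h)⟩
      · rintro ⟨hp, hp'⟩
        rw [Set.mem_insert_iff, Set.mem_singleton_iff, not_or] at hp'
        refine ⟨⟨p, hp⟩, ?_, rfl⟩
        rw [Set.mem_compl_iff, Set.mem_insert_iff, Set.mem_singleton_iff, not_or]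
        exact ⟨fun h => hp'.1 (congrArg Subtype.val h), fun h => hp'.2 (congrArg Subtype.val h)⟩
    rw [this]
    exact compl_preconnected
  have himg := hpre.image h h.continuous.continuousOn
  have hset : h '' ({⟨j 1, h1⟩, ⟨((1 : ℂ), (0 : ℝ)), h2⟩}ᶜ : Set XS)
      = ({h ⟨j 1, h1⟩, h ⟨((1 : ℂ), (0 : ℝ)), h2⟩}ᶜ : Set Circle) := by
    rw [Set.image_compl_eq h.bijective, Set.image_pair]
  rw [hset] at himg
  exact circle_two_points _ _ (fun heq => hne (h.injective heq)) himg

end Pool.Agent.Helper531.FSP
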