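import Mathlib
import Pool.Agent.Helper531.FSP.Space

set_option autoImplicit false

namespace Pool.Agent.Helper531.FSP

open Set Filter Topology Metric

/-- the amount of displacement -/
noncomputable def δ (A : Set (ℂ × ℝ)) (p : ℂ × ℝ) : ℝ := infDist p A / 4

/-- the distance from the centre to `A` -/
noncomputable def ρ (A : Set (ℂ × ℝ)) : ℝ := infDist ((0:ℂ), (0:ℝ)) A

noncomputable def R (A : Set (ℂ × ℝ)) (z : ℂ) : ℂ := z * e (δ A (z, 0))

noncomputable def g (A : Set (ℂ × ℝ)) (z : ℂ) : ℂ :=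
  ((min ‖z‖ (2 * ‖z‖ - ρ A) / ‖z‖ : ℝ) : ℂ) * R A z

open Classical in
noncomputable def fD (A : Set (ℂ × ℝ)) (z : ℂ) : ℂ × ℝ :=
  if ‖z‖ ≤ ρ A / 2 then j (ρ A / 4 - ‖z‖ / 2) else (g A z, 0)

open Classical in
noncomputable def fJ (A : Set (ℂ × ℝ)) (p : ℂ × ℝ) : ℂ × ℝ :=
  if ‖p.1‖ < 1 then j (‖p.1‖ / (1 - ‖p.1‖) + δ A p) else (R A p.1, 0)

open Classical in
noncomputable def f (A : Set (ℂ × ℝ)) (p : ℂ × ℝ) : ℂ × ℝ :=
  if p.2 = 0 then fD A p.1 else fJ A p

section
variable {A : Set (ℂ × ℝ)}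

theorem δ_cont : Continuous (δ A) := by unfold δ; exact (continuous_infDist_pt A).div_const 4

theorem δ_nonneg (p : ℂ × ℝ) : 0 ≤ δ A p := div_nonneg infDist_nonneg (by norm_num)

theorem δ_le (hne : A.Nonempty) (hsub : A ⊆ XS) {p : ℂ × ℝ} (hp : p ∈ XS) : δ A p ≤ 1 / 2 := by
  obtain ⟨q, hq⟩ := hne
  have h1 := infDist_le_dist_of_mem (x := p) hq
  have h2 := dist_le_two hp (hsub hq)
  unfold δ
  linarith

theorem δ_lip (p q : ℂ × ℝ) : |δ A p - δ A q| ≤ dist p q / 4 := by
  have h1 := infDist_le_infDist_add_dist (s := A) (x := p) (y := q)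
  have h2 := infDist_le_infDist_add_dist (s := A) (x := q) (y := p)
  rw [dist_comm q p] at h2
  unfold δ
  rw [abs_le]
  constructor <;> linarith

theorem δ_zero (hA : IsClosed A) (hne : A.Nonempty) {p : ℂ × ℝ} : δ A p = 0 ↔ p ∈ A := by
  rw [hA.mem_iff_infDist_zero hne]
  unfold δ
  constructor
  · intro h; linarith
  · intro h; rw [h]; norm_num

theorem ρ_nonneg : 0 ≤ ρ A := infDist_nonneg

theorem ρ_le (hne : A.Nonempty) (hsub : A ⊆ XS) : ρ A ≤ 1 := by
  obtain ⟨q, hq⟩ := hne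
  exact (infDist_le_dist_of_mem hq).trans (dist_a_le_one (hsub hq))

theorem ρ_le_norm {z : ℂ} (hz : (z, (0:ℝ)) ∈ A) : ρ A ≤ ‖z‖ := by
  refine (infDist_le_dist_of_mem hz).trans ?_
  rw [Prod.dist_eq]
  simp

theorem δ_a : δ A ((0:ℂ), (0:ℝ)) = ρ A / 4 := rfl

theorem R_norm (z : ℂ) : ‖R A z‖ = ‖z‖ := by unfold R; rw [norm_mul, e_norm, mul_one]

theorem R_cont : Continuous (R A) := by
  unfold R
  exact continuous_id.mul (e_cont.comp (δ_cont.comp (by fun_prop)))

theorem R_zero : R A 0 = 0 := by unfold R; simp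

theorem R_inj {z w : ℂ} (hw : ‖w‖ ≤ 1) (h : R A z = R A w) : z = w := by
  by_contra hne
  have hpos : 0 < ‖z - w‖ := norm_pos_iff.mpr (sub_ne_zero.mpr hne)
  have h1 : z - w = w * (e (δ A (w, 0) - δ A (z, 0)) - 1) := by
    have h2 : z = w * e (δ A (w, 0) - δ A (z, 0)) := by
      unfold R at h
      have h3 : e (δ A (z, 0)) * e (-δ A (z, 0)) = 1 := by rw [← e_add]; simp [e_zero]
      calc z = z * (e (δ A (z, 0)) * e (-δ A (z, 0))) := by rw [h3, mul_one]
        _ = (z * e (δ A (z, 0))) * e (-δ A (z, 0)) := by ring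
        _ = (w * e (δ A (w, 0))) * e (-δ A (z, 0)) := by rw [h]
        _ = w * e (δ A (w, 0) - δ A (z, 0)) := by rw [sub_eq_add_neg, e_add]; ring
    calc z - w = w * e (δ A (w, 0) - δ A (z, 0)) - w := by rw [← h2]
      _ = _ := by ring
  have h4 : ‖e (δ A (w, 0) - δ A (z, 0)) - 1‖ ≤ |δ A (w, 0) - δ A (z, 0)| := by
    have := e_lip (δ A (w, 0) - δ A (z, 0)) 0
    rwa [e_zero, sub_zero] at this
  have h5 := δ_lip (A := A) (w, 0) (z, 0)
  have h6 : dist ((w, (0:ℝ)) : ℂ × ℝ) (z, 0) = ‖z - w‖ := by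
    rw [Prod.dist_eq, dist_self, dist_comm, dist_eq_norm]
    exact max_eq_left (norm_nonneg _)
  rw [h6] at h5
  have h7 : ‖z - w‖ ≤ 1 * (‖z - w‖ / 4) := by
    calc ‖z - w‖ = ‖w‖ * ‖e (δ A (w, 0) - δ A (z, 0)) - 1‖ := by rw [h1, norm_mul]
      _ ≤ 1 * (‖z - w‖ / 4) := mul_le_mul hw (h4.trans h5) (norm_nonneg _) zero_le_one
  linarith

theorem R_surj (hne : A.Nonempty) (hsub : A ⊆ XS) {w : ℂ} (hw : ‖w‖ ≤ 1) :
    ∃ z, ‖z‖ = ‖w‖ ∧ R A z = w := by
  set φ := Complex.arg w with hφ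
  have hwe : w = (‖w‖ : ℂ) * e φ := (Complex.norm_mul_exp_arg_mul_I w).symm
  have hmem : ∀ θ : ℝ, (((‖w‖ : ℂ) * e θ, (0:ℝ)) : ℂ × ℝ) ∈ XS := by
    intro θ
    left
    refine ⟨?_, rfl⟩
    simp only [norm_mul, e_norm, mul_one, Complex.norm_real, norm_norm]
    exact hw
  let G : ℝ → ℝ := fun θ => θ + δ A ((‖w‖ : ℂ) * e θ, 0)
  have hG : Continuous G := by
    apply continuous_id.add
    apply δ_cont.comp
    exact (continuous_const.mul e_cont).prodMk continuous_const
  have hiv := intermediate_value_Icc (show φ - 1 ≤ φ by linarith) hG.continuousOn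
  have h1 : G (φ - 1) ≤ φ := by
    have := δ_le hne hsub (hmem (φ - 1))
    simp only [G]; linarith
  have h2 : φ ≤ G φ := by
    have := δ_nonneg (A := A) (((‖w‖ : ℂ) * e φ, (0:ℝ)))
    simp only [G]; linarith
  obtain ⟨θ, -, hθ⟩ := hiv ⟨h1, h2⟩
  refine ⟨(‖w‖ : ℂ) * e θ, ?_, ?_⟩
  · simp only [norm_mul, e_norm, mul_one, Complex.norm_real, norm_norm]
  · unfold R
    rw [mul_assoc, ← e_add]
    have : θ + δ A ((‖w‖ : ℂ) * e θ, 0) = φ := hθ
    rw [this, ← hwe]

/-- the shift along the ray -/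
noncomputable def F (A : Set (ℂ × ℝ)) (x : ℝ) : ℝ := x + δ A (j x)

theorem F_zero : F A 0 = ρ A / 4 := by unfold F; rw [j_zero, δ_a, zero_add]

theorem F_ge (x : ℝ) : x ≤ F A x := by unfold F; linarith [δ_nonneg (A := A) (j x)]

theorem F_lt {x y : ℝ} (hx : 0 ≤ x) (hxy : x < y) : F A x < F A y := by
  have h1 := δ_lip (A := A) (j x) (j y)
  have h2 := j_lip hx (hx.trans hxy.le)
  rw [abs_sub_comm x y, abs_of_pos (sub_pos.mpr hxy)] at h2
  have h3 := (abs_le.mp h1).2
  unfold F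
  linarith

theorem F_inj {x y : ℝ} (hx : 0 ≤ x) (hy : 0 ≤ y) (h : F A x = F A y) : x = y := by
  rcases lt_trichotomy x y with h' | h' | h'
  · exact absurd h (F_lt hx h').ne
  · exact h'
  · exact absurd h (F_lt hy h').ne'

theorem F_surj {y : ℝ} (hy : ρ A / 4 ≤ y) : ∃ x, 0 ≤ x ∧ F A x = y := by
  have hy0 : 0 ≤ y := (div_nonneg ρ_nonneg (by norm_num)).trans hy
  have hc : ContinuousOn (F A) (Icc 0 y) := by
    unfold F
    exact continuousOn_id.add (δ_cont.comp_continuousOn (j_contOn.mono (fun x hx => hx.1)))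
  have hiv := intermediate_value_Icc hy0 hc
  obtain ⟨x, hx, hxy⟩ := hiv ⟨by rw [F_zero]; exact hy, F_ge y⟩
  exact ⟨x, hx.1, hxy⟩

theorem δ_j_zero_iff (hA : IsClosed A) (hne : A.Nonempty) (x : ℝ) : F A x = x ↔ j x ∈ A := by
  rw [← δ_zero hA hne]
  unfold F
  constructor
  · intro h; linarith
  · intro h; linarith

/-! values of `f` -/

theorem f_j {x : ℝ} (hx : 0 < x) : f A (j x) = j (F A x) := by
  unfold f fJ F
  rw [if_neg (j_pos hx).ne', j_norm hx.le, if_pos (rad_lt_one hx.le), rad_par hx.le]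

theorem f_D {z : ℂ} : f A (z, 0) = fD A z := by unfold f; simp

theorem f_D1 {z : ℂ} (h : ‖z‖ ≤ ρ A / 2) : f A (z, 0) = j (ρ A / 4 - ‖z‖ / 2) := by
  rw [f_D]; unfold fD; rw [if_pos h]

theorem f_D2 {z : ℂ} (h : ρ A / 2 < ‖z‖) : f A (z, 0) = (g A z, 0) := by
  rw [f_D]; unfold fD; rw [if_neg (not_le.mpr h)]

theorem g_norm {z : ℂ} (h : ρ A / 2 < ‖z‖) : ‖g A z‖ = min ‖z‖ (2 * ‖z‖ - ρ A) := by
  have hz : 0 < ‖z‖ := lt_of_le_of_lt (div_nonneg ρ_nonneg (by norm_num)) h
  unfold g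
  rw [norm_mul, R_norm, Complex.norm_real, Real.norm_eq_abs, abs_div, abs_of_pos hz,
    div_mul_cancel₀ _ hz.ne']
  exact abs_of_nonneg (le_min hz.le (by linarith))

theorem g_pos {z : ℂ} (h : ρ A / 2 < ‖z‖) : 0 < ‖g A z‖ := by
  rw [g_norm h]
  have hz : 0 < ‖z‖ := lt_of_le_of_lt (div_nonneg ρ_nonneg (by norm_num)) h
  exact lt_min hz (by linarith)

theorem g_large {z : ℂ} (h : ρ A ≤ ‖z‖) : g A z = R A z := by
  by_cases hz : z = 0
  · rw [hz]; unfold g; rw [R_zero, mul_zero]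
  · have hz' : 0 < ‖z‖ := norm_pos_iff.mpr hz
    unfold g
    rw [min_eq_left (by linarith), div_self hz'.ne']
    simp

theorem mapsTo (hne : A.Nonempty) (hsub : A ⊆ XS) : MapsTo (f A) XS XS := by
  intro p hp
  rcases mem_D_or hp with h | ⟨x, hx, rfl⟩
  · have hp' : p = (p.1, 0) := Prod.ext rfl h.2
    rw [hp']
    by_cases hz : ‖p.1‖ ≤ ρ A / 2
    · rw [f_D1 hz]
      exact Or.inr (j_mem (by linarith))
    · rw [not_le] at hz
      rw [f_D2 hz]
      left
      refine ⟨?_, rfl⟩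
      simp only
      rw [g_norm hz]
      exact (min_le_left _ _).trans h.1
  · rw [f_j hx]
    exact Or.inr (j_mem (hx.le.trans (F_ge x)))

/-! fibres -/

theorem circle_connected (r : ℝ) (hr : 0 ≤ r) : IsConnected {p : ℂ × ℝ | ‖p.1‖ = r ∧ p.2 = 0} := by
  have : {p : ℂ × ℝ | ‖p.1‖ = r ∧ p.2 = 0} = range (fun θ : ℝ => (((r:ℂ) * e θ, (0:ℝ)) : ℂ × ℝ)) := by
    ext p
    constructor
    · rintro ⟨h1, h2⟩
      refine ⟨Complex.arg p.1, ?_⟩
      apply Prod.ext
      · simp only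
        rw [← h1]
        exact Complex.norm_mul_exp_arg_mul_I p.1
      · exact h2.symm
    · rintro ⟨θ, rfl⟩
      refine ⟨?_, rfl⟩
      simp only [norm_mul, e_norm, mul_one, Complex.norm_real, Real.norm_eq_abs]
      exact abs_of_nonneg hr
  rw [this]
  apply isConnected_range
  exact (continuous_const.mul e_cont).prodMk continuous_const

theorem j_ne_D {x : ℝ} (hx : 0 < x) (z : ℂ) : j x ≠ (z, 0) := by
  intro h
  have := j_pos hx
  rw [h] at this
  exact lt_irrefl _ this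

theorem F_pos {x : ℝ} (hx : 0 < x) : 0 < F A x := lt_of_lt_of_le hx (F_ge x)

theorem F_gt {x : ℝ} (hx : 0 < x) : ρ A / 4 < F A x := by
  rw [← F_zero]; exact F_lt le_rfl hx

/-- fibre over a nonzero point of the disc -/
theorem fibre_D (hne : A.Nonempty) (hsub : A ⊆ XS) {w : ℂ} (hw0 : w ≠ 0) (hw : ‖w‖ ≤ 1) :
    ∃ z : ℂ, XS ∩ f A ⁻¹' {(w, 0)} = {(z, 0)} := by
  have hwpos : 0 < ‖w‖ := norm_pos_iff.mpr hw0
  have hρ0 := ρ_nonneg (A := A)
  have hρ1 := ρ_le hne hsub
  set s := max ‖w‖ ((‖w‖ + ρ A) / 2) with hs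
  have hs1 : s ≤ 1 := max_le hw (by linarith)
  have hs2 : ρ A / 2 < s := lt_of_lt_of_le (by linarith) (le_max_right _ _)
  have hs0 : 0 < s := lt_of_lt_of_le hwpos (le_max_left _ _)
  have hmin : min s (2 * s - ρ A) = ‖w‖ := by
    rcases le_total (ρ A) ‖w‖ with h | h
    · have : s = ‖w‖ := max_eq_left (by linarith)
      rw [this]; exact min_eq_left (by linarith)
    · have : s = (‖w‖ + ρ A) / 2 := max_eq_right (by linarith)
      rw [this, min_eq_right (by linarith)]; ring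
  have hw' : ‖((s / ‖w‖ : ℝ) : ℂ) * w‖ = s := by
    rw [norm_mul, Complex.norm_real, Real.norm_eq_abs, abs_of_pos (div_pos hs0 hwpos),
      div_mul_cancel₀ _ hwpos.ne']
  obtain ⟨z, hz, hRz⟩ := R_surj hne hsub (w := ((s / ‖w‖ : ℝ) : ℂ) * w) (by rw [hw']; exact hs1)
  rw [hw'] at hz
  refine ⟨z, ?_⟩
  have hgz : g A z = w := by
    unfold g
    rw [hz, hmin, hRz, ← mul_assoc, ← Complex.ofReal_mul]
    have : ‖w‖ / s * (s / ‖w‖) = 1 := by field_simp
    rw [this]; simp
  ext p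
  constructor
  · rintro ⟨hp, hfp⟩
    rw [Set.mem_preimage, Set.mem_singleton_iff] at hfp
    rcases mem_D_or hp with h | ⟨x, hx, rfl⟩
    · have hp' : p = (p.1, 0) := Prod.ext rfl h.2
      rw [hp'] at hfp
      by_cases hzz : ‖p.1‖ ≤ ρ A / 2
      · exfalso
        rw [f_D1 hzz] at hfp
        rcases (show (0:ℝ) ≤ ρ A / 4 - ‖p.1‖ / 2 by linarith).lt_or_eq with h' | h'
        · exact j_ne_D h' w hfp
        · rw [← h', j_zero] at hfp
          exact hw0 (congrArg Prod.fst hfp).symm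
      · rw [not_le] at hzz
        rw [f_D2 hzz] at hfp
        have hg : g A p.1 = w := congrArg Prod.fst hfp
        have hn := g_norm hzz
        rw [hg, ← hmin] at hn
        have hsn : ‖p.1‖ = s := by
          rcases lt_trichotomy ‖p.1‖ s with h' | h' | h'
          · exfalso
            have : min ‖p.1‖ (2 * ‖p.1‖ - ρ A) < min s (2 * s - ρ A) := by
              apply lt_min
              · exact lt_of_le_of_lt (min_le_left _ _) h'
              · exact lt_of_le_of_lt (min_le_right _ _) (by linarith)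
            linarith
          · exact h'
          · exfalso
            have : min s (2 * s - ρ A) < min ‖p.1‖ (2 * ‖p.1‖ - ρ A) := by
              apply lt_min
              · exact lt_of_le_of_lt (min_le_left _ _) h'
              · exact lt_of_le_of_lt (min_le_right _ _) (by linarith)
            linarith
        have hR : R A p.1 = R A z := by
          have h1 : g A p.1 = g A z := by rw [hg, hgz]
          unfold g at h1
          rw [hsn, hz] at h1
          apply mul_left_cancel₀ _ h1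
          rw [hmin]
          have : (‖w‖ / s : ℝ) ≠ 0 := (div_pos hwpos hs0).ne'
          exact_mod_cast this
        have := R_inj (by rw [hz]; exact hs1) hR
        rw [Set.mem_singleton_iff, hp', this]
    · exfalso
      rw [f_j hx] at hfp
      exact j_ne_D (F_pos hx) w hfp
  · intro hp
    rw [Set.mem_singleton_iff] at hp
    rw [hp]
    refine ⟨Or.inl ⟨by simp only; rw [hz]; exact hs1, rfl⟩, ?_⟩
    rw [Set.mem_preimage, Set.mem_singleton_iff, f_D2 (by rw [hz]; exact hs2), hgz]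

/-- fibre over the centre -/
theorem fibre_a (hne : A.Nonempty) (hsub : A ⊆ XS) :
    XS ∩ f A ⁻¹' {((0:ℂ), (0:ℝ))} = {p : ℂ × ℝ | ‖p.1‖ = ρ A / 2 ∧ p.2 = 0} := by
  have hρ0 := ρ_nonneg (A := A)
  have hρ1 := ρ_le hne hsub
  ext p
  constructor
  · rintro ⟨hp, hfp⟩
    rw [Set.mem_preimage, Set.mem_singleton_iff] at hfp
    rcases mem_D_or hp with h | ⟨x, hx, rfl⟩
    · have hp' : p = (p.1, 0) := Prod.ext rfl h.2
      rw [hp'] at hfp
      by_cases hzz : ‖p.1‖ ≤ ρ A / 2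
      · rw [f_D1 hzz] at hfp
        rcases (show (0:ℝ) ≤ ρ A / 4 - ‖p.1‖ / 2 by linarith).lt_or_eq with h' | h'
        · exact absurd hfp (j_ne_D h' 0)
        · exact ⟨by linarith, h.2⟩
      · exfalso
        rw [not_le] at hzz
        rw [f_D2 hzz] at hfp
        have hg : g A p.1 = 0 := congrArg Prod.fst hfp
        have := g_pos hzz
        rw [hg, norm_zero] at this
        exact lt_irrefl _ this
    · exfalso
      rw [f_j hx] at hfp
      exact j_ne_D (F_pos hx) 0 hfp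
  · rintro ⟨h1, h2⟩
    have hp' : p = (p.1, 0) := Prod.ext rfl h2
    refine ⟨Or.inl ⟨by rw [h1]; linarith, h2⟩, ?_⟩
    rw [Set.mem_preimage, Set.mem_singleton_iff, hp', f_D1 h1.le, h1]
    have : ρ A / 4 - ρ A / 2 / 2 = 0 := by ring
    rw [this, j_zero]

/-- fibre over a point of the initial part of the ray -/
theorem fibre_j1 (hne : A.Nonempty) (hsub : A ⊆ XS) {t : ℝ} (ht : 0 < t) (ht' : t ≤ ρ A / 4) :
    XS ∩ f A ⁻¹' {j t} = {p : ℂ × ℝ | ‖p.1‖ = ρ A / 2 - 2 * t ∧ p.2 = 0} := by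
  have hρ0 := ρ_nonneg (A := A)
  have hρ1 := ρ_le hne hsub
  ext p
  constructor
  · rintro ⟨hp, hfp⟩
    rw [Set.mem_preimage, Set.mem_singleton_iff] at hfp
    rcases mem_D_or hp with h | ⟨x, hx, rfl⟩
    · have hp' : p = (p.1, 0) := Prod.ext rfl h.2
      rw [hp'] at hfp
      by_cases hzz : ‖p.1‖ ≤ ρ A / 2
      · rw [f_D1 hzz] at hfp
        have := j_inj (by linarith) ht.le hfp
        exact ⟨by linarith, h.2⟩
      · exfalso
        rw [not_le] at hzz
        rw [f_D2 hzz] at hfp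
        exact j_ne_D ht _ hfp.symm
    · exfalso
      rw [f_j hx] at hfp
      have h1 := j_inj (F_pos hx).le ht.le hfp
      have h2 := F_gt (A := A) hx
      linarith
  · rintro ⟨h1, h2⟩
    have hp' : p = (p.1, 0) := Prod.ext rfl h2
    refine ⟨Or.inl ⟨by rw [h1]; linarith, h2⟩, ?_⟩
    rw [Set.mem_preimage, Set.mem_singleton_iff, hp', f_D1 (by rw [h1]; linarith), h1]
    congr 1
    ring

/-- fibre over a point of the rest of the ray -/
theorem fibre_j2 {t : ℝ} (ht' : ρ A / 4 < t) :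
    ∃ x : ℝ, 0 < x ∧ XS ∩ f A ⁻¹' {j t} = {j x} := by
  have hρ0 := ρ_nonneg (A := A)
  obtain ⟨x, hx0, hx⟩ := F_surj ht'.le
  have hxpos : 0 < x := by
    rcases hx0.lt_or_eq with h | h
    · exact h
    · rw [← h, F_zero] at hx; linarith
  have ht : 0 < t := by linarith
  refine ⟨x, hxpos, ?_⟩
  ext p
  constructor
  · rintro ⟨hp, hfp⟩
    rw [Set.mem_preimage, Set.mem_singleton_iff] at hfp
    rcases mem_D_or hp with h | ⟨y, hy, rfl⟩
    · exfalso
      have hp' : p = (p.1, 0) := Prod.ext rfl h.2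
      rw [hp'] at hfp
      by_cases hzz : ‖p.1‖ ≤ ρ A / 2
      · rw [f_D1 hzz] at hfp
        have := j_inj (by linarith) ht.le hfp
        have := norm_nonneg p.1
        linarith
      · rw [not_le] at hzz
        rw [f_D2 hzz] at hfp
        exact j_ne_D ht _ hfp.symm
    · rw [f_j hy] at hfp
      have h1 := j_inj (F_pos hy).le ht.le hfp
      rw [← hx] at h1
      rw [F_inj hy.le hx0 h1]
      rfl
  · intro hp
    rw [Set.mem_singleton_iff] at hp
    rw [hp]
    refine ⟨Or.inr (j_mem hx0), ?_⟩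
    rw [Set.mem_preimage, Set.mem_singleton_iff, f_j hxpos, hx]

theorem fibre_connected (hne : A.Nonempty) (hsub : A ⊆ XS) {y : ℂ × ℝ} (hy : y ∈ XS) :
    IsConnected (XS ∩ f A ⁻¹' {y}) := by
  rcases mem_D_or hy with h | ⟨t, ht, rfl⟩
  · have hy' : y = (y.1, 0) := Prod.ext rfl h.2
    by_cases h0 : y.1 = 0
    · rw [hy', h0, fibre_a hne hsub]
      exact circle_connected _ (div_nonneg ρ_nonneg (by norm_num))
    · obtain ⟨z, hz⟩ := fibre_D hne hsub h0 h.1
      rw [hy', hz]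
      exact isConnected_singleton
  · by_cases ht' : t ≤ ρ A / 4
    · rw [fibre_j1 hne hsub ht ht']
      exact circle_connected _ (by linarith)
    · rw [not_le] at ht'
      obtain ⟨x, -, hx⟩ := fibre_j2 ht'
      rw [hx]
      exact isConnected_singleton

/-! fixed points -/

theorem fixed_iff (hA : IsClosed A) (hne : A.Nonempty) (hsub : A ⊆ XS) {p : ℂ × ℝ} (hp : p ∈ XS) :
    f A p = p ↔ p ∈ A := by
  have hρ0 := ρ_nonneg (A := A)
  rcases mem_D_or hp with h | ⟨x, hx, rfl⟩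
  · obtain ⟨z, t⟩ := p
    have ht : t = 0 := h.2
    subst ht
    have hz1 : ‖z‖ ≤ 1 := h.1
    by_cases hz : ‖z‖ ≤ ρ A / 2
    · rw [f_D1 hz]
      constructor
      · intro heq
        rcases (show (0:ℝ) ≤ ρ A / 4 - ‖z‖ / 2 by linarith).lt_or_eq with h' | h'
        · exact absurd heq (j_ne_D h' z)
        · rw [← h', j_zero] at heq
          have hz0 : (0:ℂ) = z := congrArg Prod.fst heq
          rw [← hz0, norm_zero] at h'
          rw [← hz0, hA.mem_iff_infDist_zero hne]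
          change ρ A = 0
          linarith
      · intro hmem
        have h1 := ρ_le_norm hmem
        have h2 : ‖z‖ = 0 := by linarith [norm_nonneg z]
        have h3 : ρ A = 0 := by linarith
        rw [h2, h3]
        have h4 : z = 0 := norm_eq_zero.mp h2
        rw [h4]
        have : (0:ℝ) / 4 - 0 / 2 = 0 := by norm_num
        rw [this, j_zero]
    · rw [not_le] at hz
      have hzpos : 0 < ‖z‖ := lt_of_le_of_lt (div_nonneg hρ0 (by norm_num)) hz
      rw [f_D2 hz]
      constructor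
      · intro heq
        have hg : g A z = z := congrArg Prod.fst heq
        have hn := g_norm hz
        rw [hg] at hn
        have hρz : ρ A ≤ ‖z‖ := by
          have := min_le_right ‖z‖ (2 * ‖z‖ - ρ A)
          linarith
        rw [g_large hρz] at hg
        unfold R at hg
        have he : e (δ A (z, 0)) = 1 := by
          have hz0 : z ≠ 0 := norm_pos_iff.mp hzpos
          apply mul_left_cancel₀ hz0
          rw [hg, mul_one]
        have := e_eq_one (δ_nonneg _) (by linarith [δ_le hne hsub hp]) he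
        exact (δ_zero hA hne).mp this
      · intro hmem
        have h1 := ρ_le_norm hmem
        rw [g_large h1]
        unfold R
        rw [(δ_zero hA hne).mpr hmem, e_zero, mul_one]
  · rw [f_j hx, ← δ_j_zero_iff hA hne x]
    constructor
    · intro h; exact j_inj (F_pos hx).le hx.le h
    · intro h; rw [h]

end

end Pool.Agent.Helper531.FSP
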