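import Mathlib
import Pool.Agent.Helper531.FSP.Maps

set_option autoImplicit false

namespace Pool.Agent.Helper531.FSP

open Set Filter Topology Metric

variable {A : Set (ℂ × ℝ)}

theorem g_contOn : ContinuousOn (g A) {z | ρ A / 2 ≤ ‖z‖} := by
  by_cases h : ρ A = 0
  · have hg : ∀ z, g A z = R A z := fun z => g_large (by rw [h]; exact norm_nonneg z)
    have : g A = R A := funext hg
    rw [this]
    exact R_cont.continuousOn
  · have hpos : 0 < ρ A := lt_of_le_of_ne ρ_nonneg (Ne.symm h)
    unfold g
    apply ContinuousOn.mul _ R_cont.continuousOn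
    apply Complex.continuous_ofReal.comp_continuousOn
    apply ContinuousOn.div
    · exact (continuous_norm.min ((continuous_const.mul continuous_norm).sub continuous_const)).continuousOn
    · exact continuous_norm.continuousOn
    · intro z hz
      have : ρ A / 2 ≤ ‖z‖ := hz
      linarith

theorem fD_cont : Continuous (fD A) := by
  have h1 : ContinuousOn (fD A) {z | ‖z‖ ≤ ρ A / 2} := by
    have : ContinuousOn (fun z : ℂ => j (ρ A / 4 - ‖z‖ / 2)) {z | ‖z‖ ≤ ρ A / 2} := by
      apply j_contOn.comp
      · exact (continuous_const.sub (continuous_norm.div_const 2)).continuousOn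
      · intro z hz
        have : ‖z‖ ≤ ρ A / 2 := hz
        change (0:ℝ) ≤ ρ A / 4 - ‖z‖ / 2
        linarith
    apply this.congr
    intro z hz
    have hz' : ‖z‖ ≤ ρ A / 2 := hz
    unfold fD
    rw [if_pos hz']
  have h2 : ContinuousOn (fD A) {z | ρ A / 2 ≤ ‖z‖} := by
    have : ContinuousOn (fun z : ℂ => ((g A z, (0:ℝ)) : ℂ × ℝ)) {z | ρ A / 2 ≤ ‖z‖} :=
      g_contOn.prodMk continuousOn_const
    apply this.congr
    intro z hz
    have hz' : ρ A / 2 ≤ ‖z‖ := hz
    unfold fD
    rcases hz'.lt_or_eq with h | h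
    · rw [if_neg (not_le.mpr h)]
    · rw [if_pos h.ge]
      have e1 : ρ A / 4 - ‖z‖ / 2 = 0 := by linarith
      rw [e1, j_zero]
      have e2 : g A z = 0 := by
        unfold g
        have : min ‖z‖ (2 * ‖z‖ - ρ A) = 0 := by
          have : 2 * ‖z‖ - ρ A = 0 := by linarith
          rw [this]
          exact min_eq_right (norm_nonneg z)
        rw [this]; simp
      show ((0:ℂ), (0:ℝ)) = (g A z, 0)
      rw [e2]
  rw [← continuousOn_univ]
  have hun : (univ : Set ℂ) = {z | ‖z‖ ≤ ρ A / 2} ∪ {z | ρ A / 2 ≤ ‖z‖} := by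
    symm
    rw [Set.eq_univ_iff_forall]
    intro z
    rcases le_total ‖z‖ (ρ A / 2) with h | h
    · exact Or.inl h
    · exact Or.inr h
  rw [hun]
  exact h1.union_of_isClosed h2 (isClosed_le continuous_norm continuous_const)
    (isClosed_le continuous_const continuous_norm)

/-- radius after the shift -/
noncomputable def r' (A : Set (ℂ × ℝ)) (p : ℂ × ℝ) : ℝ :=
  (‖p.1‖ + δ A p * (1 - ‖p.1‖)) / (1 + δ A p * (1 - ‖p.1‖))

noncomputable def Φ (A : Set (ℂ × ℝ)) (p : ℂ × ℝ) : ℂ × ℝ :=
  (((r' A p / ‖p.1‖ : ℝ) : ℂ) * R' p, r' A p * (1 - r' A p))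
  where R' (p : ℂ × ℝ) : ℂ := p.1 * e (δ A p)

theorem fJ_eq_Φ {p : ℂ × ℝ} (hp : p ∈ Jb) (h0 : 0 < ‖p.1‖) : fJ A p = Φ A p := by
  rcases hp.1.lt_or_eq with h | h
  · unfold fJ
    rw [if_pos h]
    have hδ := δ_nonneg (A := A) p
    have h1 : 0 < 1 - ‖p.1‖ := by linarith
    have hrad : rad (‖p.1‖ / (1 - ‖p.1‖) + δ A p) = r' A p := by
      unfold rad r'
      have h2 : 1 + (‖p.1‖ / (1 - ‖p.1‖) + δ A p) ≠ 0 := by
        have := par_nonneg h
        linarith
      have h3 : 1 + δ A p * (1 - ‖p.1‖) ≠ 0 := by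
        have := mul_nonneg hδ h1.le
        linarith
      rw [div_eq_div_iff h2 h3]
      field_simp
      ring
    unfold Φ j
    rw [hrad]
    apply Prod.ext
    · simp only [Φ.R']
      rw [e_add]
      conv_rhs => rw [hp.2.2 h]
      have h4 : ((‖p.1‖ : ℝ) : ℂ) ≠ 0 := by exact_mod_cast h0.ne'
      rw [norm_mul, e_norm, mul_one, Complex.norm_real, norm_norm]
      push_cast
      field_simp
    · rfl
  · unfold fJ
    rw [if_neg (by rw [h]; exact lt_irrefl _)]
    unfold Φ
    have hr : r' A p = 1 := by unfold r'; rw [h]; norm_num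
    rw [hr]
    apply Prod.ext
    · simp only [Φ.R']
      have hp2 : p.2 = 0 := (mem_D_of_norm_one hp h).2
      rw [h]
      unfold R
      rw [← hp2]
      simp
    · simp

theorem fJ_cont : ContinuousOn (fJ A) Jb := by
  intro p hp
  rcases hp.1.lt_or_eq with h | h
  · -- near p, fJ is j ∘ (par + δ)
    have h1 : ContinuousWithinAt (fun q : ℂ × ℝ => j (‖q.1‖ / (1 - ‖q.1‖) + δ A q))
        (Jb ∩ {q | ‖q.1‖ < 1}) p := by
      have hc : ContinuousOn (fun q : ℂ × ℝ => j (‖q.1‖ / (1 - ‖q.1‖) + δ A q))
          (Jb ∩ {q | ‖q.1‖ < 1}) := by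
        apply j_contOn.comp
        · apply ContinuousOn.add _ δ_cont.continuousOn
          apply ContinuousOn.div
          · exact continuous_fst.norm.continuousOn
          · exact (continuous_const.sub continuous_fst.norm).continuousOn
          · rintro q ⟨-, hq⟩
            have : ‖q.1‖ < 1 := hq
            linarith
        · rintro q ⟨-, hq⟩
          exact add_nonneg (par_nonneg hq) (δ_nonneg q)
      exact hc p ⟨hp, h⟩
    have hopen : IsOpen {q : ℂ × ℝ | ‖q.1‖ < 1} := isOpen_lt continuous_fst.norm continuous_const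
    have h2 : ContinuousWithinAt (fun q : ℂ × ℝ => j (‖q.1‖ / (1 - ‖q.1‖) + δ A q)) Jb p := by
      rwa [continuousWithinAt_inter (hopen.mem_nhds h)] at h1
    apply h2.congr_of_eventuallyEq
    · filter_upwards [mem_nhdsWithin_of_mem_nhds (hopen.mem_nhds h)] with q hq
      unfold fJ; rw [if_pos hq]
    · unfold fJ; rw [if_pos h]
  · have hopen : IsOpen {q : ℂ × ℝ | 0 < ‖q.1‖} := isOpen_lt continuous_const continuous_fst.norm
    have hp0 : 0 < ‖p.1‖ := by rw [h]; norm_num
    have hr : ContinuousAt (r' A) p := by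
      unfold r'
      apply ContinuousAt.div
      · exact (continuous_fst.norm.add (δ_cont.mul (continuous_const.sub continuous_fst.norm))).continuousAt
      · exact (continuous_const.add (δ_cont.mul (continuous_const.sub continuous_fst.norm))).continuousAt
      · rw [h]; norm_num
    have hΦ : ContinuousAt (Φ A) p := by
      unfold Φ
      apply ContinuousAt.prodMk
      · apply ContinuousAt.mul
        · apply Complex.continuous_ofReal.continuousAt.comp
          exact hr.div continuous_fst.norm.continuousAt hp0.ne'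
        · unfold Φ.R'
          exact (continuous_fst.mul (e_cont.comp δ_cont)).continuousAt
      · exact hr.mul (continuousAt_const.sub hr)
    apply hΦ.continuousWithinAt.congr_of_eventuallyEq
    · filter_upwards [mem_nhdsWithin_of_mem_nhds (hopen.mem_nhds hp0), self_mem_nhdsWithin] with q hq hqJ
      exact fJ_eq_Φ hqJ hq
    · exact fJ_eq_Φ hp hp0

theorem f_contOn (hne : A.Nonempty) (hsub : A ⊆ XS) : ContinuousOn (f A) XS := by
  have hρ0 := ρ_nonneg (A := A)
  have hρ1 := ρ_le hne hsub
  apply ContinuousOn.union_of_isClosed _ _ D_closed Jb_closed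
  · have : ContinuousOn (fun p : ℂ × ℝ => fD A p.1) D := (fD_cont.comp continuous_fst).continuousOn
    apply this.congr
    intro p hp
    unfold f
    rw [if_pos hp.2]
  · apply fJ_cont.congr
    intro p hp
    unfold f
    split_ifs with h
    · have h2 := hp.2.1
      rw [h] at h2
      rcases mul_eq_zero.mp h2.symm with h3 | h3
      · have hz : p.1 = 0 := norm_eq_zero.mp h3
        have hpe : p = (0, 0) := Prod.ext hz h
        rw [hpe]
        unfold fD fJ
        rw [if_pos (by simp; linarith), if_pos (by simp)]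
        simp only [norm_zero]
        congr 1
        have := δ_a (A := A)
        rw [this]
        norm_num
      · have h4 : ‖p.1‖ = 1 := by linarith
        unfold fD fJ
        rw [if_neg (by rw [h4]; linarith), if_neg (by rw [h4]; exact lt_irrefl _),
          g_large (A := A) (by rw [h4]; exact hρ1)]
    · rfl

end Pool.Agent.Helper531.FSP
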